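import Pool.Agent.H180Z.Baum.Model
import Pool.Agent.H816Z.Spec

set_option autoImplicit false

open Polynomial

namespace Pool.Agent.H180Z.Baum

section Pres

variable {P : Type} [Group P] (a s t : P)

/-- conjugates of `a` by powers of `t` -/
def aj (j : ℕ) : P := t ^ j * a * (t ^ j)⁻¹

structure Rels : Prop where
  sq : a * a = 1
  st : s * t = t * s
  c1 : a * (t * a * t⁻¹) = (t * a * t⁻¹) * a
  rel : s * a * s⁻¹ = a * (t * a * t⁻¹)

variable {a s t}

theorem aj_succ (j : ℕ) : t * aj a t j * t⁻¹ = aj a t (j + 1) := by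
  simp only [aj, pow_succ']
  group

theorem aj_conj (j k : ℕ) : t ^ j * aj a t k * (t ^ j)⁻¹ = aj a t (j + k) := by
  simp only [aj, pow_add]
  group

theorem aj_s (h : Rels a s t) (j : ℕ) : s * aj a t j * s⁻¹ = aj a t j * aj a t (j + 1) := by
  have hc : s * t ^ j = t ^ j * s := (Commute.pow_right h.st j).eq
  have hc2 : (t ^ j)⁻¹ * s⁻¹ = s⁻¹ * (t ^ j)⁻¹ := by rw [← mul_inv_rev, hc, mul_inv_rev]
  calc s * aj a t j * s⁻¹ = (s * t ^ j) * a * ((t ^ j)⁻¹ * s⁻¹) := by simp only [aj]; group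
    _ = t ^ j * (s * a * s⁻¹) * (t ^ j)⁻¹ := by rw [hc, hc2]; group
    _ = aj a t j * aj a t (j + 1) := by rw [h.rel]; simp only [aj, pow_succ]; group

theorem conj_comm {x y : P} (g : P) (h : Commute x y) : Commute (g * x * g⁻¹) (g * y * g⁻¹) :=
  h.map (MulAut.conj g)

theorem aj_sq (h : Rels a s t) (j : ℕ) : aj a t j * aj a t j = 1 := by
  calc aj a t j * aj a t j = t ^ j * (a * a) * (t ^ j)⁻¹ := by simp only [aj]; group
    _ = 1 := by rw [h.sq]; group

theorem aj_comm_add (h : Rels a s t) (n : ℕ) : ∀ j, Commute (aj a t j) (aj a t (j + n)) := by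
  induction n using Nat.strong_induction_on with
  | _ n ih =>
    intro j
    match n, ih with
    | 0, _ => exact Commute.refl _
    | 1, _ =>
      have h1 : Commute (aj a t 0) (aj a t 1) := by
        simp only [aj, pow_zero, pow_one, one_mul, inv_one, mul_one]
        exact h.c1
      have := conj_comm (t ^ j) h1
      rwa [aj_conj, aj_conj] at this
    | n + 2, ih =>
      have h1 := ih (n + 1) (by omega) j
      have h2 := ih n (by omega) (j + 1)
      have h3 := ih (n + 1) (by omega) (j + 1)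
      have h4 := conj_comm s h1
      rw [aj_s h, aj_s h] at h4
      rw [show j + 1 + n = j + (n + 1) by omega] at h2
      rw [show j + 1 + (n + 1) = j + (n + 2) by omega] at h3
      rw [show j + (n + 1) + 1 = j + (n + 2) by omega] at h4
      have h5 : Commute (aj a t j * aj a t (j + 1)) (aj a t (j + (n + 1))) := h1.mul_left h2
      have h6 := h5.inv_right.mul_right h4
      rw [inv_mul_cancel_left] at h6
      have h7 := h6.mul_left h3.inv_left
      rwa [mul_inv_cancel_right] at h7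

theorem aj_comm (h : Rels a s t) (i j : ℕ) : aj a t i * aj a t j = aj a t j * aj a t i := by
  rcases le_total i j with hij | hij
  · obtain ⟨n, rfl⟩ := Nat.exists_eq_add_of_le hij
    exact (aj_comm_add h n i).eq
  · obtain ⟨n, rfl⟩ := Nat.exists_eq_add_of_le hij
    exact (aj_comm_add h n j).eq.symm

theorem exists_eps (h : Rels a s t) : ∃ ε : PP → P, (∀ p q, ε (p + q) = ε p * ε q) ∧
    ∀ n : ℕ, ε (X ^ n) = aj a t n := by
  let C : Subgroup P := Subgroup.closure (Set.range (aj a t))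
  letI : CommGroup C := Subgroup.closureCommGroupOfComm (by
    rintro _ ⟨i, rfl⟩ _ ⟨j, rfl⟩
    exact aj_comm h i j)
  let el : ℕ → Additive C := fun n => Additive.ofMul ⟨aj a t n, Subgroup.subset_closure ⟨n, rfl⟩⟩
  have hel : ∀ n, el n + el n = 0 := fun n => by
    change Additive.ofMul (_ * _ : C) = Additive.ofMul (1 : C)
    congr 1
    exact Subtype.ext (aj_sq h n)
  let f : ℕ → ZMod 2 →+ Additive C := fun n =>
    ZMod.lift 2 ⟨zmultiplesHom (Additive C) (el n), by
      rw [zmultiplesHom_apply, natCast_zsmul, two_nsmul]; exact hel n⟩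
  have hf : ∀ n, f n 1 = el n := fun n => by
    have := ZMod.lift_coe 2 ⟨zmultiplesHom (Additive C) (el n), by
      rw [zmultiplesHom_apply, natCast_zsmul, two_nsmul]; exact hel n⟩ 1
    rw [Int.cast_one] at this
    rw [this]
    simp
  refine ⟨fun p => ((Additive.toMul (p.sum fun n c => f n c) : C) : P), fun p q => ?_, fun n => ?_⟩
  · beta_reduce
    rw [Polynomial.sum_add_index p q (fun n c => f n c) (fun n => map_zero (f n))
      (fun n b c => map_add (f n) b c)]
    rfl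
  · beta_reduce
    rw [← monomial_one_right_eq_X_pow,
      Polynomial.sum_monomial_index (1 : ZMod 2) (fun n c => f n c) (map_zero (f n))]
    beta_reduce
    rw [hf]
    rfl

theorem poly_ind {Q : PP → Prop} (h0 : Q 0) (h1 : ∀ n : ℕ, Q (X ^ n))
    (h2 : ∀ p q, Q p → Q q → Q (p + q)) (p : PP) : Q p := by
  induction p using Polynomial.induction_on' with
  | add p q hp hq => exact h2 p q hp hq
  | monomial n c =>
    have hc : c = 0 ∨ c = 1 := by revert c; decide
    rcases hc with rfl | rfl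
    · simpa using h0
    · rw [monomial_one_right_eq_X_pow]; exact h1 n

theorem inj_of (h : Rels a s t) (hgen : ∀ H : Subgroup P, a ∈ H → s ∈ H → t ∈ H → H = ⊤)
    (φ : P →* G) (ha : φ a = ga) (hs : φ s = gs) (ht : φ t = gt) (g : P) (hg : φ g = 1) :
    g = 1 := by
  obtain ⟨ε, hadd, hX⟩ := exists_eps h
  have e0 : ε 0 = 1 := by
    have := hadd 0 0
    rw [add_zero] at this
    exact left_eq_mul.1 this
  have et : ∀ p, t * ε p * t⁻¹ = ε (X * p) := by
    refine poly_ind (by simp [e0]) (fun n => ?_) (fun p q hp hq => ?_)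
    · rw [← pow_succ', hX, hX, aj_succ]
    · rw [mul_add, hadd, hadd, ← hp, ← hq]; group
  have es : ∀ p, s * ε p * s⁻¹ = ε ((1 + X) * p) := by
    refine poly_ind (by simp [e0]) (fun n => ?_) (fun p q hp hq => ?_)
    · rw [add_mul, one_mul, ← pow_succ', hadd, hX, hX, aj_s h]
    · rw [mul_add, hadd, hadd, ← hp, ← hq]; group
  have eφ : ∀ p, φ (ε p) = tr (am p) := by
    refine poly_ind (by simp [e0, tr_zero]) (fun n => ?_) (fun p q hp hq => ?_)
    · rw [hX, ← up_t_nat, ← gaj, aj, map_mul, map_mul, map_inv, map_pow, ha, ht, zpow_natCast]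
    · rw [hadd, map_mul, hp, hq, map_add, tr_add]
  have ew : ∀ (n : ℕ) p, (s * t) ^ n * ε p * ((s * t) ^ n)⁻¹ = ε ((X * (1 + X)) ^ n * p) := by
    intro n
    induction n with
    | zero => simp
    | succ n ih =>
      intro p
      have : (X * (1 + X)) ^ (n + 1) * p = (1 + X) * (X * ((X * (1 + X)) ^ n * p)) := by ring
      rw [this, ← es, ← et, ← ih, pow_succ']
      simp only [mul_inv_rev, mul_assoc]
  have hsw : ∀ n : ℕ, Commute s ((s * t) ^ n) := fun n =>
    ((Commute.refl s).mul_right h.st).pow_right n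
  have htw : ∀ n : ℕ, Commute t ((s * t) ^ n) := fun n =>
    ((Commute.symm h.st).mul_right (Commute.refl t)).pow_right n
  have lift : ∀ (n k : ℕ) p, ((s * t) ^ n)⁻¹ * ε p * (s * t) ^ n =
      ((s * t) ^ (n + k))⁻¹ * ε ((X * (1 + X)) ^ k * p) * (s * t) ^ (n + k) := by
    intro n k p
    rw [← ew, add_comm n k, pow_add]
    group
  have esq : ∀ p, ε p * ε p = 1 := fun p => by
    rw [← hadd, ← two_mul, two_PP, zero_mul, e0]
  let A : Subgroup P :=
    { carrier := {b | ∃ (n : ℕ) (p : PP), b = ((s * t) ^ n)⁻¹ * ε p * (s * t) ^ n}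
      one_mem' := ⟨0, 0, by simp [e0]⟩
      mul_mem' := by
        rintro _ _ ⟨n, p, rfl⟩ ⟨m, q, rfl⟩
        refine ⟨n + m, (X * (1 + X)) ^ m * p + (X * (1 + X)) ^ n * q, ?_⟩
        rw [lift n m p, lift m n q, add_comm m n, hadd]
        group
      inv_mem' := by
        rintro _ ⟨n, p, rfl⟩
        refine ⟨n, p, ?_⟩
        have : (ε p)⁻¹ = ε p := inv_eq_of_mul_eq_one_right (esq p)
        rw [mul_inv_rev, mul_inv_rev, this, inv_inv, mul_assoc] }
  have cj : ∀ (x : P) (n : ℕ) (p q : PP), Commute x ((s * t) ^ n) → x * ε p * x⁻¹ = ε q →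
      x * (((s * t) ^ n)⁻¹ * ε p * (s * t) ^ n) * x⁻¹ = ((s * t) ^ n)⁻¹ * ε q * (s * t) ^ n := by
    intro x n p q hc e
    rw [← e]
    calc x * (((s * t) ^ n)⁻¹ * ε p * (s * t) ^ n) * x⁻¹
        = (x * ((s * t) ^ n)⁻¹) * ε p * ((s * t) ^ n * x⁻¹) := by group
      _ = _ := by rw [hc.inv_right.eq, ← hc.inv_left.eq]; group
  have As : ∀ b ∈ A, s * b * s⁻¹ ∈ A := by
    rintro _ ⟨n, p, rfl⟩
    exact ⟨n, _, cj s n p _ (hsw n) (es p)⟩
  have At : ∀ b ∈ A, t * b * t⁻¹ ∈ A := by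
    rintro _ ⟨n, p, rfl⟩
    exact ⟨n, _, cj t n p _ (htw n) (et p)⟩
  have Aw : ∀ b ∈ A, (s * t)⁻¹ * b * (s * t) ∈ A := by
    rintro _ ⟨n, p, rfl⟩
    exact ⟨n + 1, p, by rw [pow_succ]; group⟩
  have aA : a ∈ A := ⟨0, X ^ 0, by rw [hX]; simp [aj]⟩
  have hN : A.Normal := by
    rw [← Subgroup.normalizer_eq_top_iff]
    refine hgen _ (Subgroup.le_normalizer aA) ?_ ?_
    · rw [Subgroup.mem_normalizer_iff]
      refine fun b => ⟨As b, fun hb => ?_⟩
      have := Aw _ (At _ hb)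
      have e : (s * t)⁻¹ * (t * (s * b * s⁻¹) * t⁻¹) * (s * t) = b := by
        rw [h.st]; group
      rwa [e] at this
    · rw [Subgroup.mem_normalizer_iff]
      refine fun b => ⟨At b, fun hb => ?_⟩
      have := Aw _ (As _ hb)
      have e : (s * t)⁻¹ * (s * (t * b * t⁻¹) * s⁻¹) * (s * t) = b := by group
      rwa [e] at this
  let D : Subgroup P :=
    { carrier := {d | ∃ i j : ℤ, d = s ^ i * t ^ j}
      one_mem' := ⟨0, 0, by simp⟩
      mul_mem' := by
        rintro _ _ ⟨i, j, rfl⟩ ⟨k, l, rfl⟩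
        refine ⟨i + k, j + l, ?_⟩
        have : t ^ j * s ^ k = s ^ k * t ^ j := (Commute.zpow_zpow h.st k j).eq.symm
        rw [zpow_add, zpow_add, mul_assoc, ← mul_assoc (t ^ j), this]
        group
      inv_mem' := by
        rintro _ ⟨i, j, rfl⟩
        refine ⟨-i, -j, ?_⟩
        rw [(Commute.zpow_zpow h.st (-i) (-j)).eq]
        group }
  have htop : A ⊔ D = ⊤ :=
    hgen _ (Subgroup.mem_sup_left aA) (Subgroup.mem_sup_right ⟨1, 0, by simp⟩)
      (Subgroup.mem_sup_right ⟨0, 1, by simp⟩)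
  have hm : g ∈ A ⊔ D := by rw [htop]; exact Subgroup.mem_top _
  obtain ⟨_, ⟨n, p, rfl⟩, _, ⟨i, j, rfl⟩, rfl⟩ := Subgroup.mem_sup_of_normal_left.1 hm
  have h1 : φ (((s * t) ^ n)⁻¹ * ε p * (s * t) ^ n) = tr (up (φ ((s * t) ^ n)⁻¹).v * am p) := by
    rw [← conj_tr, ← eφ]
    simp
  have h2 : φ (s ^ i * t ^ j) = lin (Multiplicative.ofAdd (i, j)) := by
    rw [← lin_eq, map_mul, map_zpow, map_zpow, hs, ht]
  rw [map_mul, h1, h2] at hg
  have h3 := congrArg G.v hg
  have h4 := congrArg G.r hg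
  simp only [tr, lin, mul_v, mul_r, one_v, one_r, MonoidHom.coe_mk, OneHom.coe_mk, toAdd_ofAdd,
    zero_add, mul_zero, add_zero, Prod.mk_eq_zero] at h3 h4
  have h5 : p = 0 := am_inj (by rw [map_zero]; exact (mul_eq_zero.1 h4).resolve_left (up_ne _))
  rw [h5, h3.1, h3.2, e0]
  simp

end Pres

noncomputable def fr : FreeGroup (Fin 3) →* G := FreeGroup.lift ![ga, gs, gt]

def fa : FreeGroup (Fin 3) := FreeGroup.of 0
def fs : FreeGroup (Fin 3) := FreeGroup.of 1
def ft : FreeGroup (Fin 3) := FreeGroup.of 2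

def RR : Finset (FreeGroup (Fin 3)) :=
  {fa * fa, fs * ft * (ft * fs)⁻¹, fa * (ft * fa * ft⁻¹) * ((ft * fa * ft⁻¹) * fa)⁻¹,
    fs * fa * fs⁻¹ * (fa * (ft * fa * ft⁻¹))⁻¹}

theorem fr_a : fr fa = ga := by simp [fr, fa]
theorem fr_s : fr fs = gs := by simp [fr, fs]
theorem fr_t : fr ft = gt := by simp [fr, ft]

theorem grels : Rels ga gs gt where
  sq := tr_sq 1
  st := gst
  c1 := by rw [gta]; exact tr_comm 1 _
  rel := grel

theorem fp : Pool.Agent.H816Z.FP G := by
  refine ⟨3, fr, RR, fun g => ?_, ?_⟩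
  · exact top_of fr.range ⟨fa, fr_a⟩ ⟨fs, fr_s⟩ ⟨ft, fr_t⟩ g
  have hle : Subgroup.normalClosure (↑RR : Set (FreeGroup (Fin 3))) ≤ fr.ker := by
    refine Subgroup.normalClosure_le_normal ?_
    intro x hx
    simp only [RR, Finset.coe_insert, Finset.coe_singleton, Set.mem_insert_iff,
      Set.mem_singleton_iff] at hx
    rw [SetLike.mem_coe, MonoidHom.mem_ker]
    rcases hx with rfl | rfl | rfl | rfl
    · rw [map_mul, fr_a]; exact grels.sq
    · simp only [map_mul, map_inv, fr_s, fr_t]; exact mul_inv_eq_one.2 grels.st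
    · simp only [map_mul, map_inv, fr_a, fr_t]; exact mul_inv_eq_one.2 grels.c1
    · simp only [map_mul, map_inv, fr_a, fr_s, fr_t]; exact mul_inv_eq_one.2 grels.rel
  refine le_antisymm ?_ hle
  intro x hx
  set N := Subgroup.normalClosure (↑RR : Set (FreeGroup (Fin 3))) with hNdef
  let q : FreeGroup (Fin 3) →* FreeGroup (Fin 3) ⧸ N := QuotientGroup.mk' N
  have hq : ∀ y ∈ RR, q y = 1 := fun y hy =>
    (QuotientGroup.eq_one_iff y).2 (Subgroup.subset_normalClosure hy)
  have hr : Rels (q fa) (q fs) (q ft) := by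
    refine ⟨?_, ?_, ?_, ?_⟩
    · rw [← map_mul]; exact hq _ (by simp [RR])
    · have := hq (fs * ft * (ft * fs)⁻¹) (by simp [RR])
      simp only [map_mul, map_inv] at this
      exact mul_inv_eq_one.1 this
    · have := hq (fa * (ft * fa * ft⁻¹) * ((ft * fa * ft⁻¹) * fa)⁻¹) (by simp [RR])
      simp only [map_mul, map_inv] at this
      exact mul_inv_eq_one.1 this
    · have := hq (fs * fa * fs⁻¹ * (fa * (ft * fa * ft⁻¹))⁻¹) (by simp [RR])
      simp only [map_mul, map_inv] at this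
      exact mul_inv_eq_one.1 this
  have hgen : ∀ H : Subgroup (FreeGroup (Fin 3) ⧸ N), q fa ∈ H → q fs ∈ H → q ft ∈ H → H = ⊤ := by
    intro H h1 h2 h3
    rw [eq_top_iff]
    intro y _
    obtain ⟨y, rfl⟩ := QuotientGroup.mk'_surjective N y
    have : (⊤ : Subgroup (FreeGroup (Fin 3))) ≤ H.comap q := by
      rw [← FreeGroup.closure_range_of, Subgroup.closure_le]
      rintro _ ⟨i, rfl⟩
      fin_cases i
      · exact h1
      · exact h2
      · exact h3
    exact this (Subgroup.mem_top y)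
  have := inj_of hr hgen (QuotientGroup.lift N fr hle) fr_a fr_s fr_t (q x) hx
  exact (QuotientGroup.eq_one_iff x).1 this

theorem g1 : Pool.Agent.H816Z.S_G1 := by
  refine ⟨G, inferInstance, ga, gs, gt, pi, psi, fp, rfl, rfl, rfl, ?_, ?_, grel, gst, gen,
    psi_inj, ?_, ?_, idx, cube⟩
  · intro b hb b' hb'
    obtain ⟨r, rfl⟩ := (ker_iff b).1 hb
    obtain ⟨r', rfl⟩ := (ker_iff b').1 hb'
    exact tr_comm r r'
  · intro b hb
    obtain ⟨r, rfl⟩ := (ker_iff b).1 hb
    exact tr_sq r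
  · exact G.ext (mul_zero _) rfl
  · exact G.ext (mul_zero _) rfl

end Pool.Agent.H180Z.Baum
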