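import Mathlib

set_option autoImplicit false

open Polynomial

namespace Pool.Agent.H180Z.Baum

abbrev PP : Type := (ZMod 2)[X]

abbrev Rr : Type := Localization.Away (X * (1 + X) : PP)

noncomputable abbrev am : PP →+* Rr := algebraMap PP Rr

theorem w_ne : (X * (1 + X) : PP) ≠ 0 := by
  refine mul_ne_zero X_ne_zero ?_
  intro h
  have := congrArg (fun p : PP => p.coeff 0) h
  simp at this

theorem pow_le : Submonoid.powers (X * (1 + X) : PP) ≤ nonZeroDivisors PP :=
  powers_le_nonZeroDivisors_of_noZeroDivisors w_ne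

instance : IsDomain Rr := IsLocalization.isDomain_localization pow_le

theorem am_inj : Function.Injective am := IsLocalization.injective Rr pow_le

theorem w_unit : IsUnit (am X * am (1 + X)) := by
  rw [← map_mul]
  exact IsLocalization.Away.algebraMap_isUnit (X * (1 + X) : PP)

noncomputable def xu : Rrˣ := (isUnit_of_mul_isUnit_left w_unit).unit
noncomputable def yu : Rrˣ := (isUnit_of_mul_isUnit_right w_unit).unit

theorem xu_val : (xu : Rr) = am X := rfl
theorem yu_val : (yu : Rr) = am (1 + X) := rfl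

noncomputable def up (v : ℤ × ℤ) : Rr := ((yu ^ v.1 * xu ^ v.2 : Rrˣ) : Rr)

theorem up_zero : up 0 = 1 := by simp [up]

theorem up_add (v w : ℤ × ℤ) : up (v + w) = up v * up w := by
  simp only [up, Prod.fst_add, Prod.snd_add, zpow_add, ← Units.val_mul]
  congr 1
  exact mul_mul_mul_comm _ _ _ _

theorem up_neg_mul (v : ℤ × ℤ) : up (-v) * up v = 1 := by
  rw [← up_add, neg_add_cancel, up_zero]

theorem up_ne (v : ℤ × ℤ) : up v ≠ 0 := Units.ne_zero _

theorem up_s : up (1, 0) = am (1 + X) := by simp [up, yu_val]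
theorem up_t : up (0, 1) = am X := by simp [up, xu_val]

theorem up_t_nat (n : ℕ) : up (0, n) = am (X ^ n) := by simp [up, xu_val]

theorem up_w_nat (n : ℕ) : up (n, n) = am ((X * (1 + X)) ^ n) := by
  simp only [up, zpow_natCast, Units.val_mul, Units.val_pow_eq_pow_val, xu_val, yu_val, map_pow,
    map_mul, mul_pow]
  ring

theorem two_PP : (2 : PP) = 0 := CharTwo.two_eq_zero

theorem two_Rr : (2 : Rr) = 0 := by
  have := congrArg am two_PP
  rwa [map_ofNat, map_zero] at this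

theorem add_self (r : Rr) : r + r = 0 := by rw [← two_mul, two_Rr, zero_mul]

theorem surj (z : Rr) : ∃ (n : ℕ) (p : PP), z = am p * up (-((n : ℤ), (n : ℤ))) := by
  obtain ⟨n, p, h⟩ := IsLocalization.Away.surj (X * (1 + X) : PP) z
  refine ⟨n, p, ?_⟩
  have h2 : z * up ((n : ℤ), (n : ℤ)) = am p := by rw [up_w_nat, map_pow]; exact h
  rw [← h2, mul_assoc, mul_comm (up _), up_neg_mul, mul_one]

/-- the model group -/
@[ext] structure G : Type where
  r : Rr
  v : ℤ × ℤ

noncomputable instance : Mul G := ⟨fun g h => ⟨g.r + up g.v * h.r, g.v + h.v⟩⟩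
noncomputable instance : One G := ⟨⟨0, 0⟩⟩
noncomputable instance : Inv G := ⟨fun g => ⟨up (-g.v) * g.r, -g.v⟩⟩

@[simp] theorem mul_r (g h : G) : (g * h).r = g.r + up g.v * h.r := rfl
@[simp] theorem mul_v (g h : G) : (g * h).v = g.v + h.v := rfl
@[simp] theorem one_r : (1 : G).r = 0 := rfl
@[simp] theorem one_v : (1 : G).v = 0 := rfl
@[simp] theorem inv_r (g : G) : (g⁻¹).r = up (-g.v) * g.r := rfl
@[simp] theorem inv_v (g : G) : (g⁻¹).v = -g.v := rfl

noncomputable instance : Group G :=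
  Group.ofLeftAxioms
    (fun a b c => by
      ext1
      · simp only [mul_r, mul_v, up_add]; ring
      · simp only [mul_v, add_assoc])
    (fun a => by
      ext1
      · simp [up_zero]
      · simp)
    (fun a => by
      ext1
      · simp [add_self]
      · simp)

noncomputable def ga : G := ⟨1, 0⟩
noncomputable def gs : G := ⟨0, (1, 0)⟩
noncomputable def gt : G := ⟨0, (0, 1)⟩

/-- translations -/
noncomputable def tr (r : Rr) : G := ⟨r, 0⟩

theorem tr_add (r r' : Rr) : tr (r + r') = tr r * tr r' := by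
  ext1
  · simp [tr, up_zero]
  · simp [tr]

theorem tr_zero : tr 0 = 1 := rfl

theorem conj_tr (g : G) (r : Rr) : g * tr r * g⁻¹ = tr (up g.v * r) := by
  ext1
  · simp only [tr, mul_r, mul_v, inv_r, add_zero]
    rw [← mul_assoc, mul_comm (up g.v) (up (-g.v)), up_neg_mul, one_mul]
    linear_combination add_self g.r
  · simp [tr]

noncomputable def pi : G →* Multiplicative (ℤ × ℤ) where
  toFun g := Multiplicative.ofAdd g.v
  map_one' := rfl
  map_mul' _ _ := rfl

theorem pi_apply (g : G) : pi g = Multiplicative.ofAdd g.v := rfl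

theorem v_zpow (g : G) (n : ℤ) : (g ^ n).v = n • g.v := by
  have := map_zpow pi g n
  rw [pi_apply, pi_apply, ← ofAdd_zsmul] at this
  exact Multiplicative.ofAdd.injective this

theorem v_pow (g : G) (n : ℕ) : (g ^ n).v = n • g.v := by
  have := map_pow pi g n
  rw [pi_apply, pi_apply, ← ofAdd_nsmul] at this
  exact Multiplicative.ofAdd.injective this

theorem ker_iff (b : G) : b ∈ pi.ker ↔ ∃ r, b = tr r := by
  rw [MonoidHom.mem_ker, pi_apply]
  constructor
  · intro h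
    refine ⟨b.r, ?_⟩
    ext1
    · rfl
    · exact Multiplicative.ofAdd.injective h
  · rintro ⟨r, rfl⟩
    rfl

/-- the linear part -/
noncomputable def lin : Multiplicative (ℤ × ℤ) →* G where
  toFun v := ⟨0, Multiplicative.toAdd v⟩
  map_one' := rfl
  map_mul' _ _ := by
    ext1
    · simp
    · simp

theorem lin_eq (i j : ℤ) : gs ^ i * gt ^ j = lin (Multiplicative.ofAdd (i, j)) := by
  have h1 : gs = lin (Multiplicative.ofAdd (1, 0)) := rfl
  have h2 : gt = lin (Multiplicative.ofAdd (0, 1)) := rfl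
  rw [h1, h2, ← map_zpow lin, ← map_zpow lin, ← map_mul lin, ← ofAdd_zsmul, ← ofAdd_zsmul, ← ofAdd_add]
  simp

theorem decomp (g : G) : g = tr g.r * (gs ^ g.v.1 * gt ^ g.v.2) := by
  rw [lin_eq]
  ext1
  · simp [tr, lin]
  · simp [tr, lin]

theorem gaj (j : ℤ) : gt ^ j * ga * (gt ^ j)⁻¹ = tr (up (0, j)) := by
  have : ga = tr 1 := rfl
  rw [this, conj_tr, v_zpow, mul_one]
  simp [gt]

theorem poly_mem (H : Subgroup G) (h : ∀ j : ℤ, tr (up (0, j)) ∈ H) (p : PP) (j : ℤ) :
    tr (am p * up (0, j)) ∈ H := by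
  induction p using Polynomial.induction_on' with
  | add p q hp hq => rw [map_add, add_mul, tr_add]; exact H.mul_mem hp hq
  | monomial n c =>
    have hc : c = 0 ∨ c = 1 := by revert c; decide
    rcases hc with rfl | rfl
    · simp [tr_zero]
    · rw [monomial_one_right_eq_X_pow, ← up_t_nat, ← up_add]
      simpa using h (n + j)

theorem gen (b : G) (hb : b ∈ pi.ker) : ∃ m : ℕ, gs ^ m * b * (gs ^ m)⁻¹ ∈
    Subgroup.closure (Set.range fun j : ℤ => gt ^ j * ga * (gt ^ j)⁻¹) := by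
  obtain ⟨r, rfl⟩ := (ker_iff b).1 hb
  obtain ⟨n, p, rfl⟩ := surj r
  refine ⟨n, ?_⟩
  rw [conj_tr, v_pow, mul_left_comm, ← up_add]
  have : n • gs.v + -((n : ℤ), (n : ℤ)) = (0, -(n : ℤ)) := by simp [gs]
  rw [this]
  refine poly_mem _ (fun j => ?_) p _
  rw [← gaj]
  exact Subgroup.subset_closure ⟨j, rfl⟩

theorem top_of (H : Subgroup G) (ha : ga ∈ H) (hs : gs ∈ H) (ht : gt ∈ H) (g : G) : g ∈ H := by
  rw [decomp g]
  refine H.mul_mem ?_ (H.mul_mem (H.zpow_mem hs _) (H.zpow_mem ht _))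
  obtain ⟨m, hm⟩ := gen (tr g.r) ((ker_iff _).2 ⟨_, rfl⟩)
  have h1 : gs ^ m * tr g.r * (gs ^ m)⁻¹ ∈ H := by
    refine (Subgroup.closure_le H).2 ?_ hm
    rintro _ ⟨j, rfl⟩
    exact H.mul_mem (H.mul_mem (H.zpow_mem ht _) ha) (H.inv_mem (H.zpow_mem ht _))
  have h2 := H.mul_mem (H.mul_mem (H.inv_mem (H.pow_mem hs m)) h1) (H.pow_mem hs m)
  simpa [mul_assoc] using h2

noncomputable def uu : PP := 1 + X + X ^ 2

theorem uu_deg : uu.natDegree = 2 := by
  unfold uu
  compute_degree!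

theorem uu_monic : uu.Monic := by
  unfold uu
  monicity!

noncomputable def psi : G →* G where
  toFun g := ⟨am uu * g.r, g.v⟩
  map_one' := by
    ext1
    · simp
    · rfl
  map_mul' g h := by
    ext1
    · simp only [mul_r]; ring
    · rfl

theorem psi_r (g : G) : (psi g).r = am uu * g.r := rfl
theorem psi_v (g : G) : (psi g).v = g.v := rfl

theorem psi_inj : Function.Injective psi := by
  intro g h e
  have h0 : am uu ≠ 0 := fun h0 => uu_monic.ne_zero (am_inj (by rw [h0, map_zero]))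
  ext1
  · exact mul_left_cancel₀ h0 (congrArg G.r e)
  · exact (congrArg G.v e : (psi g).v = (psi h).v)

theorem mem_range (g : G) : g ∈ psi.range ↔ am uu ∣ g.r := by
  constructor
  · rintro ⟨h, rfl⟩
    exact ⟨h.r, rfl⟩
  · rintro ⟨c, hc⟩
    exact ⟨⟨c, g.v⟩, G.ext hc.symm rfl⟩

theorem w_sub (n : ℕ) : uu ∣ (X * (1 + X)) ^ n - 1 := by
  have h : uu ∣ X * (1 + X) - 1 := ⟨1, by unfold uu; linear_combination (-1) * two_PP⟩
  have := sub_dvd_pow_sub_pow (X * (1 + X) : PP) 1 n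
  rw [one_pow] at this
  exact h.trans this

theorem not_dvd_one : ¬ am uu ∣ 1 := by
  rintro ⟨c, hc⟩
  obtain ⟨n, p, rfl⟩ := surj c
  have h1 : am ((X * (1 + X)) ^ n) = am (uu * p) := by
    rw [← up_w_nat, map_mul]
    have := up_neg_mul ((n : ℤ), (n : ℤ))
    linear_combination (up ((n : ℤ), (n : ℤ))) * hc + (am uu * am p) * this
  have h2 : uu ∣ (X * (1 + X)) ^ n := ⟨p, am_inj h1⟩
  have h3 : uu ∣ 1 := by
    have := dvd_sub h2 (w_sub n)
    simpa using this
  have h4 := natDegree_le_of_dvd h3 one_ne_zero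
  rw [uu_deg, natDegree_one] at h4
  omega

theorem resid (z : Rr) : ∃ c : ZMod 2 × ZMod 2, am uu ∣ z - am (C c.1 + C c.2 * X) := by
  obtain ⟨n, p, rfl⟩ := surj z
  have hd : (p %ₘ uu).natDegree ≤ 1 := by
    have h1 : uu ≠ 1 := by
      intro h
      have := uu_deg
      rw [h, natDegree_one] at this
      omega
    have := natDegree_modByMonic_lt p uu_monic h1
    rw [uu_deg] at this
    omega
  refine ⟨((p %ₘ uu).coeff 0, (p %ₘ uu).coeff 1), ?_⟩
  have h2 : p %ₘ uu = C ((p %ₘ uu).coeff 0) + C ((p %ₘ uu).coeff 1) * X := by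
    rw [add_comm]
    exact eq_X_add_C_of_natDegree_le_one hd
  rw [← h2]
  have h3 : am p = am (p %ₘ uu) + am uu * am (p /ₘ uu) := by
    rw [← map_mul, ← map_add, modByMonic_add_div]
  obtain ⟨q, hq⟩ := w_sub n
  have h4 : up ((n : ℤ), (n : ℤ)) - 1 = am uu * am q := by
    rw [up_w_nat, ← map_mul, ← hq, map_sub, map_one]
  have h5 := up_neg_mul ((n : ℤ), (n : ℤ))
  refine ⟨am (p /ₘ uu) - am p * up (-((n : ℤ), (n : ℤ))) * am q, ?_⟩
  linear_combination h3 - (am p * up (-((n : ℤ), (n : ℤ)))) * h4 + am p * h5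

theorem idx : 1 < psi.range.index := by
  have hfin : Finite (G ⧸ psi.range) := by
    refine Finite.of_surjective
      (fun c : ZMod 2 × ZMod 2 => (QuotientGroup.mk (tr (am (C c.1 + C c.2 * X))) : G ⧸ psi.range))
      ?_
    intro q
    obtain ⟨g, rfl⟩ := QuotientGroup.mk_surjective q
    obtain ⟨c, hc⟩ := resid g.r
    refine ⟨c, ?_⟩
    rw [QuotientGroup.eq, mem_range]
    have : ((tr (am (C c.1 + C c.2 * X)))⁻¹ * g).r = g.r - am (C c.1 + C c.2 * X) := by
      simp only [tr, mul_r, inv_r, inv_v, neg_zero, up_zero, one_mul]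
      linear_combination add_self (am (C c.1 + C c.2 * X))
    rw [this]
    exact hc
  have h0 : psi.range.index ≠ 0 := Subgroup.index_ne_zero_of_finite
  have h1 : psi.range.index ≠ 1 := by
    rw [Ne, Subgroup.index_eq_one]
    intro h
    have : ga ∈ psi.range := by rw [h]; exact Subgroup.mem_top _
    exact not_dvd_one ((mem_range _).1 this)
  omega

theorem unit_cube (u : Rrˣ) (h : am uu ∣ (u : Rr) ^ 3 - 1) (n : ℤ) :
    am uu ∣ ((u ^ n : Rrˣ) : Rr) ^ 3 - 1 := by
  induction n using Int.induction_on with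
  | zero => simp
  | succ n ih =>
    rw [zpow_add_one, Units.val_mul, mul_pow]
    have : ((u ^ (n : ℤ) : Rrˣ) : Rr) ^ 3 * (u : Rr) ^ 3 - 1 =
        (((u ^ (n : ℤ) : Rrˣ) : Rr) ^ 3 - 1) * (u : Rr) ^ 3 + ((u : Rr) ^ 3 - 1) := by ring
    rw [this]
    exact dvd_add (ih.mul_right _) h
  | pred n ih =>
    rw [zpow_sub_one, Units.val_mul, mul_pow]
    have h1 : ((u⁻¹ : Rrˣ) : Rr) * (u : Rr) = 1 := Units.inv_mul u
    have : ((u ^ (-n : ℤ) : Rrˣ) : Rr) ^ 3 * ((u⁻¹ : Rrˣ) : Rr) ^ 3 - 1 =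
        (((u ^ (-n : ℤ) : Rrˣ) : Rr) ^ 3 - 1) * ((u⁻¹ : Rrˣ) : Rr) ^ 3 -
          ((u : Rr) ^ 3 - 1) * ((u⁻¹ : Rrˣ) : Rr) ^ 3 := by
      have h2 : (((u⁻¹ : Rrˣ) : Rr) * (u : Rr)) ^ 3 = 1 := by rw [h1, one_pow]
      linear_combination h2
    rw [this]
    exact dvd_sub (ih.mul_right _) (h.mul_right _)

theorem up_cube (v : ℤ × ℤ) : am uu ∣ up v ^ 3 - 1 := by
  have hx : am uu ∣ (xu : Rr) ^ 3 - 1 := by
    rw [xu_val, ← map_pow, ← map_one am, ← map_sub]
    exact map_dvd am ⟨X - 1, by unfold uu; ring⟩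
  have hy : am uu ∣ (yu : Rr) ^ 3 - 1 := by
    rw [yu_val, ← map_pow, ← map_one am, ← map_sub]
    exact map_dvd am ⟨X, by unfold uu; linear_combination (X + X ^ 2) * two_PP⟩
  have h1 := unit_cube yu hy v.1
  have h2 := unit_cube xu hx v.2
  rw [up, Units.val_mul, mul_pow]
  have : ((yu ^ v.1 : Rrˣ) : Rr) ^ 3 * ((xu ^ v.2 : Rrˣ) : Rr) ^ 3 - 1 =
      (((yu ^ v.1 : Rrˣ) : Rr) ^ 3 - 1) * ((xu ^ v.2 : Rrˣ) : Rr) ^ 3 +
        (((xu ^ v.2 : Rrˣ) : Rr) ^ 3 - 1) := by ring
  rw [this]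
  exact dvd_add (h1.mul_right _) h2

theorem cube (g b : G) (hb : b ∈ pi.ker) : g ^ 3 * b * (g ^ 3)⁻¹ * b⁻¹ ∈ psi.range := by
  obtain ⟨r, rfl⟩ := (ker_iff b).1 hb
  rw [conj_tr, mem_range, v_pow]
  have h1 : up (3 • g.v) = up g.v ^ 3 := by
    rw [show (3 : ℕ) • g.v = g.v + g.v + g.v by abel, up_add, up_add]; ring
  have : (tr (up (3 • g.v) * r) * (tr r)⁻¹).r = (up g.v ^ 3 - 1) * r := by
    simp only [tr, mul_r, inv_r, neg_zero, up_zero, one_mul, h1]
    linear_combination add_self r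
  rw [this]
  exact (up_cube g.v).mul_right _

theorem tr_comm (r r' : Rr) : tr r * tr r' = tr r' * tr r := by
  rw [← tr_add, ← tr_add, add_comm]

theorem tr_sq (r : Rr) : tr r * tr r = 1 := by rw [← tr_add, add_self, tr_zero]

theorem gta : gt * ga * gt⁻¹ = tr (am X) := by
  have := gaj 1
  rwa [zpow_one, up_t] at this

theorem grel : gs * ga * gs⁻¹ = ga * (gt * ga * gt⁻¹) := by
  have h : ga = tr 1 := rfl
  rw [gta, h, conj_tr, ← tr_add, mul_one]
  have : gs.v = (1, 0) := rfl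
  rw [this, up_s, map_add, map_one]

theorem gst : gs * gt = gt * gs := by
  ext1
  · simp [gs, gt]
  · simp [gs, gt]

end Pool.Agent.H180Z.Baum
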